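import Pool.Agent.W798.KF.Chain

/-!
# k-fold sums and products: cones in the threefold and fourfold sum sets

For a set `S` of slopes the sums of the points of `X × X` on a line of slope `l ∈ S` and the points
of `Y × Y` on the next line are different points of `(X + Y) × (X + Y)`. This is used for
`X = A + A`, `Y = A` and for `X = Y = A + A`; the number of points of `(A + A) × (A + A)` on a line
of slope `l` is at least `|fib A l + fib A l|`, which is large by Solymosi's inequality for the set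
`fib A l`, all of whose products are in `fib (A * A) l`.
-/

set_option autoImplicit false

open Finset
open scoped Pointwise

namespace Pool.Agent.Run7.h70.KF

open Pool.Agent.W798.SP Pool.Agent.W798.KF
open Pool.Agent.W637.SP (mem_fib)

/-- the points below the line of slope `l` -/
noncomputable def NB (Z : Finset ℝ) (l : ℝ) : Finset (ℝ × ℝ) :=
  (Z ×ˢ Z).filter (fun p => p.2 < l * p.1)

theorem pos_add {X Y : Finset ℝ} (hX : ∀ x ∈ X, 0 < x) (hY : ∀ x ∈ Y, 0 < x) {u : ℝ}
    (hu : u ∈ X + Y) : 0 < u := by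
  obtain ⟨x, hx, y, hy, rfl⟩ := Finset.mem_add.1 hu
  exact add_pos (hX x hx) (hY y hy)

theorem step {X Y : Finset ℝ} (hX : ∀ x ∈ X, 0 < x) (hY : ∀ x ∈ Y, 0 < x) {l m : ℝ}
    (hlm : l < m) :
    (NB (X + Y) l).card + (fib X l).card * (fib Y m).card ≤ (NB (X + Y) m).card := by
  set f : ℝ × ℝ → ℝ × ℝ := fun p => (p.1 + p.2, l * p.1 + m * p.2) with hf
  have hinj : Set.InjOn f (fib X l ×ˢ fib Y m : Finset (ℝ × ℝ)) := by
    rintro ⟨x, y⟩ _ ⟨x', y'⟩ _ h
    simp only [hf, Prod.mk.injEq] at h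
    obtain ⟨h1, h2⟩ := h
    have h3 : (m - l) * (y - y') = 0 := by linear_combination h2 - l * h1
    have h4 : y = y' := by
      rcases mul_eq_zero.1 h3 with h | h
      · exact absurd h (sub_pos.2 hlm).ne'
      · exact sub_eq_zero.1 h
    have h5 : x = x' := by rw [h4] at h1; linarith
    rw [h4, h5]
  have hdisj : Disjoint (NB (X + Y) l) ((fib X l ×ˢ fib Y m).image f) := by
    rw [Finset.disjoint_left]
    rintro p hp hp'
    obtain ⟨⟨x, y⟩, hxy, rfl⟩ := Finset.mem_image.1 hp'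
    rw [Finset.mem_product] at hxy
    have hy : 0 < y := hY y (mem_fib.1 hxy.2).1
    have h1 := (Finset.mem_filter.1 hp).2
    simp only [hf] at h1
    nlinarith
  have hsub : NB (X + Y) l ∪ (fib X l ×ˢ fib Y m).image f ⊆ NB (X + Y) m := by
    apply Finset.union_subset
    · intro p hp
      obtain ⟨h1, h2⟩ := Finset.mem_filter.1 hp
      refine Finset.mem_filter.2 ⟨h1, ?_⟩
      have h3 : 0 < p.1 := pos_add hX hY (Finset.mem_product.1 h1).1
      nlinarith
    · intro p hp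
      obtain ⟨⟨x, y⟩, hxy, rfl⟩ := Finset.mem_image.1 hp
      rw [Finset.mem_product] at hxy
      obtain ⟨hx, hy⟩ := hxy
      have hx := mem_fib.1 hx
      have hy := mem_fib.1 hy
      refine Finset.mem_filter.2 ⟨Finset.mem_product.2 ⟨Finset.add_mem_add hx.1 hy.1,
        Finset.add_mem_add hx.2 hy.2⟩, ?_⟩
      have h3 : 0 < x := hX x hx.1
      simp only [hf]
      nlinarith
  calc (NB (X + Y) l).card + (fib X l).card * (fib Y m).card
      = (NB (X + Y) l).card + ((fib X l ×ˢ fib Y m).image f).card := by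
        rw [Finset.card_image_of_injOn hinj, Finset.card_product]
    _ = (NB (X + Y) l ∪ (fib X l ×ˢ fib Y m).image f).card :=
        (Finset.card_union_of_disjoint hdisj).symm
    _ ≤ (NB (X + Y) m).card := Finset.card_le_card hsub

theorem chain {X Y : Finset ℝ} (hX : ∀ x ∈ X, 0 < x) (hY : ∀ x ∈ Y, 0 < x) (u v : ℕ)
    (S : Finset ℝ) :
    (∀ l ∈ S, u ≤ (fib X l).card ∧ v ≤ (fib Y l).card) → ∀ l ∈ S, (∀ m ∈ S, m ≤ l) →
      (S.card - 1) * (u * v) ≤ (NB (X + Y) l).card := by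
  induction S using Finset.induction_on_max with
  | empty => intro _ l hl; simp at hl
  | insert a s ha ih =>
    intro hk l hl hmax
    have hla : l = a := by
      rcases Finset.mem_insert.1 hl with h | h
      · exact h
      · exact absurd (hmax a (Finset.mem_insert_self a s)) (not_le.2 (ha l h))
    subst hla
    have hns : l ∉ s := fun h => lt_irrefl _ (ha l h)
    rw [Finset.card_insert_of_notMem hns, Nat.add_sub_cancel]
    rcases s.eq_empty_or_nonempty with rfl | hne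
    · simp
    · have h1 := ih (fun m hm => hk m (Finset.mem_insert_of_mem hm)) (s.max' hne)
        (s.max'_mem hne) (fun m hm => s.le_max' m hm)
      have h2 := step hX hY (ha _ (s.max'_mem hne))
      have h3 : u * v ≤ (fib X (s.max' hne)).card * (fib Y l).card :=
        Nat.mul_le_mul (hk _ (Finset.mem_insert_of_mem (s.max'_mem hne))).1
          (hk _ (Finset.mem_insert_self l s)).2
      have h4 : s.card * (u * v) = (s.card - 1) * (u * v) + u * v := by
        have : 1 ≤ s.card := hne.card_pos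
        obtain ⟨c, hc⟩ := Nat.exists_eq_add_of_le this
        rw [hc, Nat.add_sub_cancel_left]; ring
      omega

theorem class_le {X Y : Finset ℝ} (hX : ∀ x ∈ X, 0 < x) (hY : ∀ x ∈ Y, 0 < x) (u v : ℕ)
    (S : Finset ℝ) (hS : ∀ l ∈ S, u ≤ (fib X l).card ∧ v ≤ (fib Y l).card)
    (hXn : X.Nonempty) (hYn : Y.Nonempty) :
    S.card * (u * v) ≤ 2 * (X + Y).card ^ 2 := by
  rcases S.eq_empty_or_nonempty with rfl | hSne
  · simp
  have h1 := chain hX hY u v S hS (S.max' hSne) (S.max'_mem hSne) (fun m hm => S.le_max' m hm)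
  have h2 : (NB (X + Y) (S.max' hSne)).card ≤ (X + Y).card ^ 2 := by
    unfold NB
    refine (Finset.card_filter_le _ _).trans ?_
    rw [Finset.card_product, pow_two]
  have h3 : 1 ≤ S.card := hSne.card_pos
  obtain ⟨c, hc⟩ := Nat.exists_eq_add_of_le h3
  rw [hc, Nat.add_sub_cancel_left] at h1
  have h4 : u * v ≤ (X + Y).card ^ 2 := by
    rw [pow_two]
    apply Nat.mul_le_mul
    · calc u ≤ (fib X (S.max' hSne)).card := (hS _ (S.max'_mem hSne)).1
        _ ≤ X.card := Finset.card_le_card (Finset.filter_subset _ _)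
        _ ≤ (X + Y).card := Finset.card_le_card_add_right hYn
    · calc v ≤ (fib Y (S.max' hSne)).card := (hS _ (S.max'_mem hSne)).2
        _ ≤ Y.card := Finset.card_le_card (Finset.filter_subset _ _)
        _ ≤ (X + Y).card := Finset.card_le_card_add_left hXn
  rw [hc]
  calc (1 + c) * (u * v) = u * v + c * (u * v) := by ring
    _ ≤ (X + Y).card ^ 2 + (X + Y).card ^ 2 := add_le_add h4 (h1.trans h2)
    _ = 2 * (X + Y).card ^ 2 := by ring

/-- Solymosi's inequality for a fibre. -/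
theorem fib_two {A : Finset ℝ} (hA : ∀ x ∈ A, 0 < x) {l : ℝ} {T : ℕ} (hT : T ≤ (fib A l).card) :
    T ^ 4 ≤ 8 * (Nat.log 2 A.card + 1) * (fib (A * A) l).card * (fib (A + A) l).card ^ 2 := by
  have hBA : fib A l ⊆ A := Finset.filter_subset _ _
  have hB : ∀ x ∈ fib A l, 0 < x := fun x hx => hA x (hBA hx)
  have h1 := (pCS (fib A l) hB).1
  have h2 := pEN (fib A l) hB
  have h3 : (fib A l * fib A l).card ≤ (fib (A * A) l).card := by
    apply Finset.card_le_card
    intro z hz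
    obtain ⟨x, hx, y, hy, rfl⟩ := Finset.mem_mul.1 hz
    rw [mem_fib] at hx hy ⊢
    exact ⟨Finset.mul_mem_mul hx.1 hy.1, by rw [← mul_assoc]; exact Finset.mul_mem_mul hx.2 hy.1⟩
  have h4 : (fib A l + fib A l).card ≤ (fib (A + A) l).card := by
    apply Finset.card_le_card
    intro z hz
    obtain ⟨x, hx, y, hy, rfl⟩ := Finset.mem_add.1 hz
    rw [mem_fib] at hx hy ⊢
    exact ⟨Finset.add_mem_add hx.1 hy.1, by rw [mul_add]; exact Finset.add_mem_add hx.2 hy.2⟩
  have h5 : Nat.log 2 (fib A l).card ≤ Nat.log 2 A.card :=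
    Nat.log_mono_right (Finset.card_le_card hBA)
  calc T ^ 4 ≤ (fib A l).card ^ 4 := Nat.pow_le_pow_left hT 4
    _ ≤ (fib A l * fib A l).card * en (fib A l) := h1
    _ ≤ (fib (A * A) l).card * (8 * (fib (A + A) l).card ^ 2 * (Nat.log 2 A.card + 1)) := by
        apply Nat.mul_le_mul h3
        refine h2.trans ?_
        gcongr
    _ = _ := by ring

/-- Most slopes have few points in the product set. -/
theorem markov (S : Finset ℝ) (g : ℝ → ℕ) :
    S.card ≤ 2 * (S.filter (fun l => S.card * g l ≤ 2 * ∑ x ∈ S, g x)).card := by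
  classical
  set Q := ∑ x ∈ S, g x with hQ
  have h1 := Finset.card_filter_add_card_filter_not (s := S) (fun l => S.card * g l ≤ 2 * Q)
  set b := (S.filter (fun l => ¬ S.card * g l ≤ 2 * Q)).card with hb
  by_contra hcon
  push Not at hcon
  have h2 : S.card < 2 * b := by omega
  have h3 : b * (2 * Q + 1) ≤ S.card * Q := by
    calc b * (2 * Q + 1) = ∑ _l ∈ S.filter (fun l => ¬ S.card * g l ≤ 2 * Q), (2 * Q + 1) := by
          rw [Finset.sum_const, smul_eq_mul]
      _ ≤ ∑ l ∈ S.filter (fun l => ¬ S.card * g l ≤ 2 * Q), S.card * g l := by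
          apply Finset.sum_le_sum
          intro l hl
          have := (Finset.mem_filter.1 hl).2
          omega
      _ ≤ ∑ l ∈ S, S.card * g l := Finset.sum_le_sum_of_subset (Finset.filter_subset _ _)
      _ = S.card * Q := by rw [hQ, Finset.mul_sum]
  have h4 : S.card * Q ≤ 2 * b * Q := Nat.mul_le_mul_right _ h2.le
  have h5 : b * (2 * Q + 1) ≤ 2 * b * Q := h3.trans h4
  have h6 : b = 0 := by nlinarith
  omega

section main

variable {A S : Finset ℝ} {T : ℕ}

/-- The number `s` of points of `(A + A) × (A + A)` on most of the lines. -/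
theorem exists_s (hA : ∀ x ∈ A, 0 < x)
    (hS : ∀ l ∈ S, 0 < l ∧ T ≤ (fib A l).card ∧ (fib A l).card < 2 * T) (hne : S.Nonempty) :
    ∃ (S' : Finset ℝ) (s : ℕ), S.card ≤ 2 * S'.card ∧
      (∀ l ∈ S', s ≤ (fib (A + A) l).card ∧ T ≤ (fib A l).card) ∧
      S.card * T ^ 4 ≤ 16 * (Nat.log 2 A.card + 1) * (∑ l ∈ S, (fib (A * A) l).card) * s ^ 2 := by
  classical
  obtain ⟨Q, hQ⟩ : ∃ Q, Q = ∑ l ∈ S, (fib (A * A) l).card := ⟨_, rfl⟩
  have h1 := markov S (fun l => (fib (A * A) l).card)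
  simp only [← hQ] at h1
  obtain ⟨S', hS'⟩ : ∃ S', S' = S.filter (fun l => S.card * (fib (A * A) l).card ≤ 2 * Q) :=
    ⟨_, rfl⟩
  rw [← hS'] at h1
  have hne' : S'.Nonempty := by
    rw [← Finset.card_pos]
    have := hne.card_pos
    omega
  obtain ⟨l0, hl0, hmin⟩ := Finset.exists_min_image S' (fun l => (fib (A + A) l).card) hne'
  refine ⟨S', (fib (A + A) l0).card, h1, ?_, ?_⟩
  · intro l hl
    refine ⟨hmin l hl, ?_⟩
    rw [hS', Finset.mem_filter] at hl
    exact (hS l hl.1).2.1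
  · rw [hS', Finset.mem_filter] at hl0
    have h2 := fib_two hA (hS l0 hl0.1).2.1
    rw [← hQ]
    calc S.card * T ^ 4 ≤ S.card * (8 * (Nat.log 2 A.card + 1) * (fib (A * A) l0).card *
          (fib (A + A) l0).card ^ 2) := Nat.mul_le_mul_left _ h2
      _ = (8 * (Nat.log 2 A.card + 1) * (fib (A + A) l0).card ^ 2) *
          (S.card * (fib (A * A) l0).card) := by ring
      _ ≤ (8 * (Nat.log 2 A.card + 1) * (fib (A + A) l0).card ^ 2) * (2 * Q) :=
          Nat.mul_le_mul_left _ hl0.2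
      _ = _ := by ring

/-- The cones in the threefold sum set. -/
theorem cone3 (hA : ∀ x ∈ A, 0 < x) (hAne : A.Nonempty)
    (hS : ∀ l ∈ S, 0 < l ∧ T ≤ (fib A l).card ∧ (fib A l).card < 2 * T) :
    S.card ^ 3 * T ^ 6 ≤ 256 * (Nat.log 2 A.card + 1) * (∑ l ∈ S, (fib (A * A) l).card) *
      (A + (A + A)).card ^ 4 := by
  rcases S.eq_empty_or_nonempty with rfl | hne
  · simp
  obtain ⟨S', s, h1, h2, h3⟩ := exists_s hA hS hne
  have hAA : ∀ x ∈ A + A, 0 < x := fun x hx => pos_add hA hA hx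
  have h4 := class_le hAA hA s T S' h2 (hAne.add hAne) hAne
  rw [add_comm (A + A) A] at h4
  have h5 : S.card * (s * T) ≤ 4 * (A + (A + A)).card ^ 2 := by
    calc S.card * (s * T) ≤ 2 * S'.card * (s * T) := Nat.mul_le_mul_right _ h1
      _ = 2 * (S'.card * (s * T)) := by ring
      _ ≤ 2 * (2 * (A + (A + A)).card ^ 2) := Nat.mul_le_mul_left _ h4
      _ = _ := by ring
  calc S.card ^ 3 * T ^ 6 = S.card * T ^ 4 * (S.card * T) ^ 2 := by ring
    _ ≤ 16 * (Nat.log 2 A.card + 1) * (∑ l ∈ S, (fib (A * A) l).card) * s ^ 2 *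
        (S.card * T) ^ 2 := Nat.mul_le_mul_right _ h3
    _ = 16 * (Nat.log 2 A.card + 1) * (∑ l ∈ S, (fib (A * A) l).card) *
        (S.card * (s * T)) ^ 2 := by ring
    _ ≤ 16 * (Nat.log 2 A.card + 1) * (∑ l ∈ S, (fib (A * A) l).card) *
        (4 * (A + (A + A)).card ^ 2) ^ 2 :=
        Nat.mul_le_mul_left _ (Nat.pow_le_pow_left h5 2)
    _ = _ := by ring

/-- The cones in the fourfold sum set. -/
theorem cone4 (hA : ∀ x ∈ A, 0 < x) (hAne : A.Nonempty)
    (hS : ∀ l ∈ S, 0 < l ∧ T ≤ (fib A l).card ∧ (fib A l).card < 2 * T) :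
    S.card ^ 2 * T ^ 4 ≤ 64 * (Nat.log 2 A.card + 1) * (∑ l ∈ S, (fib (A * A) l).card) *
      (A + (A + (A + A))).card ^ 2 := by
  rcases S.eq_empty_or_nonempty with rfl | hne
  · simp
  obtain ⟨S', s, h1, h2, h3⟩ := exists_s hA hS hne
  have hAA : ∀ x ∈ A + A, 0 < x := fun x hx => pos_add hA hA hx
  have h4 := class_le hAA hAA s s S' (fun l hl => ⟨(h2 l hl).1, (h2 l hl).1⟩) (hAne.add hAne)
    (hAne.add hAne)
  rw [show (A + A) + (A + A) = A + (A + (A + A)) from add_assoc A A (A + A)] at h4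
  calc S.card ^ 2 * T ^ 4 = S.card * T ^ 4 * S.card := by ring
    _ ≤ 16 * (Nat.log 2 A.card + 1) * (∑ l ∈ S, (fib (A * A) l).card) * s ^ 2 *
        (2 * S'.card) := Nat.mul_le_mul h3 h1
    _ = 32 * (Nat.log 2 A.card + 1) * (∑ l ∈ S, (fib (A * A) l).card) *
        (S'.card * (s * s)) := by ring
    _ ≤ 32 * (Nat.log 2 A.card + 1) * (∑ l ∈ S, (fib (A * A) l).card) *
        (2 * (A + (A + (A + A))).card ^ 2) := Nat.mul_le_mul_left _ h4
    _ = _ := by ring

/-- The number of points of `(A * A) × (A * A)` on the lines. -/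
theorem upQ {H : Finset ℝ} (hH : H.Nonempty) (hA : ∀ x ∈ A, 0 < x)
    (hS : ∀ l ∈ S, 0 < l ∧ T ≤ (fib A l).card ∧ (fib A l).card < 2 * T) :
    H.card * (T * ∑ l ∈ S, (fib (A * A) l).card) ^ 2 ≤
      4097 * (Nat.log 2 (A + H).card + 1) * A.card * (A * A).card ^ 3 * (A + H).card ^ 2 := by
  have h1 := pEP A H S hH hA (fun l hl => (hS l hl).1)
  refine le_trans (Nat.mul_le_mul_left _ (Nat.pow_le_pow_left ?_ 2)) h1
  rw [Finset.mul_sum]
  exact Finset.sum_le_sum fun l hl => Nat.mul_le_mul_right _ (hS l hl).2.1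

/-- N3 -/
theorem n3 (hA : ∀ x ∈ A, 0 < x) (hAne : A.Nonempty)
    (hS : ∀ l ∈ S, 0 < l ∧ T ≤ (fib A l).card ∧ (fib A l).card < 2 * T) :
    (A + A).card * S.card ^ 6 * T ^ 14 ≤ 65536 * (Nat.log 2 A.card + 1) ^ 2 *
      (4097 * (Nat.log 2 (A + (A + A)).card + 1)) * A.card * (A * A).card ^ 3 *
        (A + (A + A)).card ^ 10 := by
  have h1 := cone3 hA hAne hS
  have h2 := upQ (A := A) (S := S) (T := T) (H := A + A) (hAne.add hAne) hA hS
  calc (A + A).card * S.card ^ 6 * T ^ 14 = (A + A).card * T ^ 2 * (S.card ^ 3 * T ^ 6) ^ 2 := by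
        ring
    _ ≤ (A + A).card * T ^ 2 * (256 * (Nat.log 2 A.card + 1) *
        (∑ l ∈ S, (fib (A * A) l).card) * (A + (A + A)).card ^ 4) ^ 2 :=
        Nat.mul_le_mul_left _ (Nat.pow_le_pow_left h1 2)
    _ = 65536 * (Nat.log 2 A.card + 1) ^ 2 * (A + (A + A)).card ^ 8 *
        ((A + A).card * (T * ∑ l ∈ S, (fib (A * A) l).card) ^ 2) := by ring
    _ ≤ 65536 * (Nat.log 2 A.card + 1) ^ 2 * (A + (A + A)).card ^ 8 *
        (4097 * (Nat.log 2 (A + (A + A)).card + 1) * A.card * (A * A).card ^ 3 *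
          (A + (A + A)).card ^ 2) := Nat.mul_le_mul_left _ h2
    _ = _ := by ring

/-- N4 -/
theorem n4 (hA : ∀ x ∈ A, 0 < x) (hAne : A.Nonempty)
    (hS : ∀ l ∈ S, 0 < l ∧ T ≤ (fib A l).card ∧ (fib A l).card < 2 * T) :
    (A + A).card * S.card ^ 4 * T ^ 10 ≤ 4096 * (Nat.log 2 A.card + 1) ^ 2 *
      (4097 * (Nat.log 2 (A + (A + A)).card + 1)) * A.card * (A * A).card ^ 3 *
        (A + (A + A)).card ^ 2 * (A + (A + (A + A))).card ^ 4 := by
  have h1 := cone4 hA hAne hS
  have h2 := upQ (A := A) (S := S) (T := T) (H := A + A) (hAne.add hAne) hA hS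
  calc (A + A).card * S.card ^ 4 * T ^ 10 = (A + A).card * T ^ 2 * (S.card ^ 2 * T ^ 4) ^ 2 := by
        ring
    _ ≤ (A + A).card * T ^ 2 * (64 * (Nat.log 2 A.card + 1) *
        (∑ l ∈ S, (fib (A * A) l).card) * (A + (A + (A + A))).card ^ 2) ^ 2 :=
        Nat.mul_le_mul_left _ (Nat.pow_le_pow_left h1 2)
    _ = 4096 * (Nat.log 2 A.card + 1) ^ 2 * (A + (A + (A + A))).card ^ 4 *
        ((A + A).card * (T * ∑ l ∈ S, (fib (A * A) l).card) ^ 2) := by ring
    _ ≤ 4096 * (Nat.log 2 A.card + 1) ^ 2 * (A + (A + (A + A))).card ^ 4 *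
        (4097 * (Nat.log 2 (A + (A + A)).card + 1) * A.card * (A * A).card ^ 3 *
          (A + (A + A)).card ^ 2) := Nat.mul_le_mul_left _ h2
    _ = _ := by ring

end main

end Pool.Agent.Run7.h70.KF
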