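import Pool.Agent.Run7.h70.KF.Five
import Pool.Agent.TH408.KF.Up4

/-!
# k-fold sums and products: the exponents for k at least 3
-/

set_option autoImplicit false
set_option linter.all false
set_option maxHeartbeats 1000000

open Finset
open scoped Pointwise

namespace Pool.Agent.Run7.h70.KF

open Pool.Agent.W798.SP Pool.Agent.W798.KF
open Pool.Agent.W741.KF (sm_ne pr_ne pr_pos)
open Pool.Agent.W839.KF (posPart sm_nonempty)

/-- The exponent for the `(j+2)`-fold sets, `j` at least 2. -/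
noncomputable def ex5 (j : ℕ) : ℝ :=
  (11844 * (2 ^ j) ^ 2 - 7873 * 2 ^ j + 750) / (2 ^ j * (7896 * 2 ^ j - 4377))

/-- iterated halving -/
theorem halve (x : ℕ → ℝ) (a : ℝ) (k i0 : ℕ) (h : ∀ i ≤ k, a ≤ 2 * x (i + 1) - x i) :
    ∀ s : ℕ, i0 + s ≤ k + 1 → x i0 - a ≤ 2 ^ s * (x (i0 + s) - a) := by
  intro s
  induction s with
  | zero => intro _; simp
  | succ s ih =>
    intro hs
    have h1 := ih (by omega)
    have h2 := h (i0 + s) (by omega)
    have h3 : (0 : ℝ) < 2 ^ s := by positivity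
    have h4 : x (i0 + s) - a ≤ 2 * (x (i0 + (s + 1)) - a) := by
      rw [← add_assoc]
      linarith
    calc x i0 - a ≤ 2 ^ s * (x (i0 + s) - a) := h1
      _ ≤ 2 ^ s * (2 * (x (i0 + (s + 1)) - a)) := mul_le_mul_of_nonneg_left h4 h3.le
      _ = 2 ^ (s + 1) * (x (i0 + (s + 1)) - a) := by ring

/-- the case of threefold sets -/
theorem li3 (x y : ℕ → ℝ) (n c E ν t : ℝ) (hc : 0 ≤ c) (hE : 0 ≤ E)
    (hST : 3 * n + x 1 + y 1 ≤ c + 2 * x 2 + 2 * y 2)
    (ha : 4 * n ≤ y 1 + (ν + 2 * t) + E)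
    (hI : 364 * t + 179 * ν ≤ 24 * y 1 + 298 * x 1 + 48 * n + E)
    (hd : 4 * ν + 6 * t + 3 * x 1 ≤ n + 3 * y 1 + 6 * x 2 + E)
    (h3 : 6 * ν + 14 * t + x 1 ≤ n + 3 * y 1 + 10 * x 2 + E) :
    3329 / 2348 * n ≤ max (x 2) (y 2) + 1 * (c + E) := by
  have h4 := le_max_left (x 2) (y 2)
  have h5 := le_max_right (x 2) (y 2)
  set m := max (x 2) (y 2)
  linarith

/-- the case of k-fold sets, k at least four -/
theorem li4 (j : ℕ) (hj : 2 ≤ j) (x y : ℕ → ℝ) (n c E ν τ : ℝ) (hc : 0 ≤ c) (hE : 0 ≤ E)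
    (hST : ∀ i i' : ℕ, 3 * n + x i + y i' ≤ c + 2 * x (i + 1) + 2 * y (i' + 1))
    (ha : 4 * n ≤ y 1 + (ν + 2 * τ) + E)
    (hI : 364 * τ + 179 * ν ≤ 24 * y 1 + 298 * x 1 + 48 * n + E)
    (hd : 4 * ν + 6 * τ + 3 * x 1 ≤ n + 3 * y 1 + 6 * x 2 + E)
    (h4 : 4 * ν + 10 * τ + x 1 ≤ n + 3 * y 1 + 2 * x 2 + 4 * x 3 + E) :
    ex5 j * n ≤ max (x (j + 1)) (y (j + 1)) + 1 * (c + E) := by
  obtain ⟨i0, hi0, hmin⟩ := Finset.exists_min_image (Finset.range (j + 1))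
    (fun i => 2 * x (i + 1) - x i) ⟨0, by simp⟩
  obtain ⟨a, had⟩ : ∃ a, a = 2 * x (i0 + 1) - x i0 := ⟨_, rfl⟩
  have hx : ∀ i ≤ j, a ≤ 2 * x (i + 1) - x i := by
    intro i hi
    rw [had]
    exact hmin i (by rw [Finset.mem_range]; omega)
  have hy : ∀ i ≤ j, 3 * n - c - a ≤ 2 * y (i + 1) - y i := by
    intro i hi
    have := hST i0 i
    rw [had]
    linarith
  have f1 := halve y (3 * n - c - a) j 1 hy j (by omega)
  obtain ⟨k, rfl⟩ : ∃ k, j = k + 2 := ⟨j - 2, by omega⟩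
  have f2 := halve x a (k + 2) 3 hx k (by omega)
  have f3 := hx 2 (by omega)
  have f4 := hx 1 (by omega)
  have e1 : 1 + (k + 2) = k + 2 + 1 := by ring
  have e2 : 3 + k = k + 2 + 1 := by ring
  rw [e1] at f1
  rw [e2] at f2
  have m1 := le_max_left (x (k + 2 + 1)) (y (k + 2 + 1))
  have m2 := le_max_right (x (k + 2 + 1)) (y (k + 2 + 1))
  set m := max (x (k + 2 + 1)) (y (k + 2 + 1))
  have hT : (1 : ℝ) ≤ 2 ^ k := one_le_pow₀ (by norm_num)
  unfold ex5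
  have epow : (2 : ℝ) ^ (k + 2) = 4 * 2 ^ k := by rw [pow_add]; ring
  obtain ⟨t, ht⟩ : ∃ t : ℝ, t = 2 ^ (k + 2) := ⟨_, rfl⟩
  rw [← ht] at f1 ⊢
  have ht4 : 4 ≤ t := by rw [ht, epow]; linarith
  have hk : (2 : ℝ) ^ k = t / 4 := by rw [ht, epow]; ring
  rw [hk] at f2
  -- the four inequalities
  have g1 : (t - 1) * (3 * n - c - a) + y 1 ≤ t * m := by
    have : t * y (k + 2 + 1) ≤ t * m := mul_le_mul_of_nonneg_left m2 (by linarith)
    nlinarith
  have g2 : (t - 4) * a + 4 * x 3 ≤ t * m := by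
    have : t * x (k + 2 + 1) ≤ t * m := mul_le_mul_of_nonneg_left m1 (by linarith)
    nlinarith
  have g3 : x 2 + a ≤ 2 * x 3 := by
    have : (2 : ℕ) + 1 = 3 := rfl
    rw [this] at f3
    linarith
  have g4 : x 1 + a ≤ 2 * x 2 := by
    have : (1 : ℕ) + 1 = 2 := rfl
    rw [this] at f4
    linarith
  have k1 := mul_le_mul_of_nonneg_left g1 (by linarith : (0 : ℝ) ≤ 3948 * t - 2506)
  have k2 := mul_le_mul_of_nonneg_left g2 (by linarith : (0 : ℝ) ≤ 3948 * t - 1871)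
  have k3 := mul_le_mul_of_nonneg_left g3 (by linarith : (0 : ℝ) ≤ 596 * (13 * t - 6))
  have k4 := mul_le_mul_of_nonneg_left g4 (by linarith : (0 : ℝ) ≤ 3461 * t - 1402)
  have k5 := mul_le_mul_of_nonneg_left hI (by linarith : (0 : ℝ) ≤ 13 * t - 6)
  have k6 := mul_le_mul_of_nonneg_left ha
    (by linarith : (0 : ℝ) ≤ 191 * (13 * t - 6) + 8 * (74 * t - 83))
  have k7 := mul_le_mul_of_nonneg_left hd
    (by linarith : (0 : ℝ) ≤ 3 * (13 * t - 6) + (74 * t - 83))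
  have k8 := mul_le_mul_of_nonneg_left h4 (by linarith : (0 : ℝ) ≤ 74 * t - 83)
  have hden : 0 < t * (7896 * t - 4377) := mul_pos (by linarith) (by linarith)
  rw [div_mul_eq_mul_div, div_le_iff₀ hden]
  have g5 : 0 ≤ (t * (7896 * t - 4377) - (3948 * t - 2506) * (t - 1)) * c :=
    mul_nonneg (by nlinarith) hc
  have g6 : 0 ≤ (t * (7896 * t - 4377) - (3275 * t - 2000)) * E :=
    mul_nonneg (by nlinarith) hE
  linarith

theorem one_le_ex5 (j : ℕ) : 1 ≤ ex5 j := by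
  have hX : (1:ℝ) ≤ 2 ^ j := one_le_pow₀ (by norm_num)
  unfold ex5
  set X : ℝ := 2 ^ j with hXd
  have hden : 0 < X * (7896 * X - 4377) := by
    apply mul_pos (by linarith)
    linarith
  rw [le_div_iff₀ hden]
  nlinarith [mul_le_mul hX hX zero_le_one (by linarith : (0:ℝ) ≤ X)]

/-- from a linear inequality for the logarithms to the bound for the sets of positive reals -/
theorem kp (j : ℕ) (e : ℝ) (hLI : ∀ (x y : ℕ → ℝ) (n c E ν t : ℝ), 0 ≤ c → 0 ≤ E →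
      (∀ i i' : ℕ, 3 * n + x i + y i' ≤ c + 2 * x (i + 1) + 2 * y (i' + 1)) →
      4 * n ≤ y 1 + (ν + 2 * t) + E →
      364 * t + 179 * ν ≤ 24 * y 1 + 298 * x 1 + 48 * n + E →
      4 * ν + 6 * t + 3 * x 1 ≤ n + 3 * y 1 + 6 * x 2 + E →
      6 * ν + 14 * t + x 1 ≤ n + 3 * y 1 + 10 * x 2 + E →
      4 * ν + 10 * t + x 1 ≤ n + 3 * y 1 + 2 * x 2 + 4 * x 3 + E →
      e * n ≤ max (x (j + 1)) (y (j + 1)) + 1 * (c + E))
    (δ : ℝ) (hδ : 0 < δ) : ∃ c : ℝ, 0 < c ∧ ∀ A : Finset ℝ,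
    A.Nonempty → (∀ x ∈ A, 0 < x) → c * (A.card : ℝ) ^ (e - δ) ≤
      max ((sm A (j + 1)).card : ℝ) ((pr A (j + 1)).card : ℝ) := by
  have hKST := pKST
  refine ⟨Real.exp (-(Real.log 512 + cst5 δ)), Real.exp_pos _, ?_⟩
  intro A hA hpos
  have hN1 : 1 ≤ A.card := hA.card_pos
  have hNpos : (0 : ℝ) < A.card := by exact_mod_cast hN1
  have hn0 : 0 ≤ Real.log A.card := Real.log_nonneg (by exact_mod_cast hN1)
  have hsm : ∀ i, (0 : ℝ) < ((sm A i).card : ℝ) := fun i => by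
    exact_mod_cast (sm_ne A hA i).card_pos
  have hpr : ∀ i, (0 : ℝ) < ((pr A i).card : ℝ) := fun i => by
    exact_mod_cast (pr_ne A hA i).card_pos
  have hc1 : ∀ i i' : ℕ, 3 * Real.log A.card + Real.log ((sm A i).card : ℝ) +
      Real.log ((pr A i').card : ℝ) ≤ Real.log 512 + 2 * Real.log ((sm A (i + 1)).card : ℝ) +
        2 * Real.log ((pr A (i' + 1)).card : ℝ) := by
    intro i i'
    have h := hKST A (sm A i) (pr A i') hpos (fun g hg => (pr_pos A hpos i' g hg).ne')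
    have h' : (A.card : ℝ) ^ 3 * ((sm A i).card : ℝ) * ((pr A i').card : ℝ) ≤
        512 * ((sm A (i + 1)).card : ℝ) ^ 2 * ((pr A (i' + 1)).card : ℝ) ^ 2 := by
      exact_mod_cast h
    have hs := hsm i
    have hp := hpr i'
    have hs' := hsm (i + 1)
    have hp' := hpr (i' + 1)
    have h2 := Real.log_le_log (by positivity) h'
    rw [Real.log_mul (by positivity) (by positivity), Real.log_mul (by positivity) (by positivity),
      Real.log_mul (by positivity) (by positivity), Real.log_mul (by positivity) (by positivity),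
      Real.log_pow, Real.log_pow, Real.log_pow] at h2
    push_cast at h2
    linarith
  obtain ⟨ν, t, a1, a2, a3, a4, a5⟩ := five hδ A hA hpos
  have hfin := hLI (fun i => Real.log ((sm A i).card : ℝ)) (fun i => Real.log ((pr A i).card : ℝ))
    (Real.log A.card) (Real.log 512) (δ * Real.log A.card + cst5 δ) ν t
    (Real.log_nonneg (by norm_num)) (add_nonneg (mul_nonneg hδ.le hn0) (cst5_nonneg δ))
    hc1 a1 a2 a3 a4 a5
  have hfin2 : (e - δ) * Real.log A.card - (Real.log 512 + cst5 δ) ≤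
      max (Real.log ((sm A (j + 1)).card : ℝ)) (Real.log ((pr A (j + 1)).card : ℝ)) := by
    linarith
  have e1 : (A.card : ℝ) ^ (e - δ) = Real.exp ((e - δ) * Real.log A.card) := by
    rw [Real.rpow_def_of_pos hNpos, mul_comm]
  rw [e1, ← Real.exp_add]
  rcases le_max_iff.1 hfin2 with h | h
  · refine le_trans ?_ (le_max_left _ _)
    rw [← Real.le_log_iff_exp_le (hsm (j + 1))]
    linarith
  · refine le_trans ?_ (le_max_right _ _)
    rw [← Real.le_log_iff_exp_le (hpr (j + 1))]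
    linarith

/-- from sets of positive reals to sets of reals -/
theorem kr (j : ℕ) (E : ℝ) (hE : 1 ≤ E)
    (hkp : ∀ δ : ℝ, 0 < δ → ∃ c : ℝ, 0 < c ∧ ∀ A : Finset ℝ,
      A.Nonempty → (∀ x ∈ A, 0 < x) → c * (A.card : ℝ) ^ (E - δ) ≤
        max ((sm A (j + 1)).card : ℝ) ((pr A (j + 1)).card : ℝ))
    (δ : ℝ) (hδ : 0 < δ) : ∃ c : ℝ, 0 < c ∧ ∀ A : Finset ℝ,
    A.Nonempty → c * (A.card : ℝ) ^ (E - δ) ≤
      max ((sm A (j + 1)).card : ℝ) ((pr A (j + 1)).card : ℝ) := by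
  have hδ' : 0 < min δ 1 := lt_min hδ one_pos
  obtain ⟨c, hc, hP⟩ := hkp (min δ 1) hδ'
  have he0 : 0 ≤ E - min δ 1 := by
    have := min_le_right δ 1
    linarith
  have he1 : E - min δ 1 ≤ E := by linarith
  have he2 : E - δ ≤ E - min δ 1 := by
    have := min_le_left δ 1
    linarith
  set e : ℝ := E - min δ 1 with he
  refine ⟨min c 1 / 3 ^ E, by positivity, ?_⟩
  intro A hA
  have hA1 : 1 ≤ A.card := hA.card_pos
  have hN1 : (1:ℝ) ≤ A.card := by exact_mod_cast hA1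
  have hcn : 0 ≤ min c 1 / 3 ^ E := by positivity
  have hstep : min c 1 / 3 ^ E * (A.card : ℝ) ^ (E - δ) ≤
      min c 1 / 3 ^ E * (A.card : ℝ) ^ e :=
    mul_le_mul_of_nonneg_left (Real.rpow_le_rpow_of_exponent_le hN1 he2) hcn
  refine hstep.trans ?_
  have h3pos : (0:ℝ) < 3 ^ E := by positivity
  rcases Nat.lt_or_ge A.card 3 with h3 | h3
  · -- small sets
    have hN3 : (A.card : ℝ) ≤ 3 := by exact_mod_cast h3.le
    have h1 : (A.card : ℝ) ^ e ≤ 3 ^ E := by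
      calc (A.card : ℝ) ^ e ≤ 3 ^ e := Real.rpow_le_rpow (by linarith) hN3 he0
        _ ≤ 3 ^ E := Real.rpow_le_rpow_of_exponent_le (by norm_num) he1
    have h2 : min c 1 / 3 ^ E * (A.card : ℝ) ^ e ≤ 1 := by
      rw [div_mul_eq_mul_div, div_le_one h3pos]
      calc min c 1 * (A.card : ℝ) ^ e ≤ 1 * (A.card : ℝ) ^ e :=
            mul_le_mul_of_nonneg_right (min_le_right _ _) (by positivity)
        _ ≤ 3 ^ E := by rw [one_mul]; exact h1
    have h4 : (1:ℝ) ≤ ((sm A (j + 1)).card : ℝ) := by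
      exact_mod_cast (sm_nonempty hA (j + 1)).card_pos
    exact h2.trans (h4.trans (le_max_left _ _))
  · obtain ⟨B, hB0, hBp, hB3, hBs, hBm⟩ := posPart A h3
    have h7 := hP B hB0 hBp
    have h8 : max ((sm B (j + 1)).card : ℝ) ((pr B (j + 1)).card : ℝ) ≤
        max ((sm A (j + 1)).card : ℝ) ((pr A (j + 1)).card : ℝ) :=
      max_le_max (by exact_mod_cast hBs (j + 1)) (by exact_mod_cast hBm (j + 1))
    refine le_trans ?_ (h7.trans h8)
    have hB3' : (A.card : ℝ) ≤ 3 * B.card := by exact_mod_cast hB3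
    have h9 : (A.card : ℝ) ^ e ≤ 3 ^ E * (B.card : ℝ) ^ e := by
      calc (A.card : ℝ) ^ e ≤ (3 * (B.card : ℝ)) ^ e :=
            Real.rpow_le_rpow (by linarith) hB3' he0
        _ = 3 ^ e * (B.card : ℝ) ^ e := Real.mul_rpow (by norm_num) (by positivity)
        _ ≤ 3 ^ E * (B.card : ℝ) ^ e :=
            mul_le_mul_of_nonneg_right (Real.rpow_le_rpow_of_exponent_le (by norm_num) he1)
              (by positivity)
    calc min c 1 / 3 ^ E * (A.card : ℝ) ^ e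
        ≤ min c 1 / 3 ^ E * (3 ^ E * (B.card : ℝ) ^ e) :=
          mul_le_mul_of_nonneg_left h9 hcn
      _ = min c 1 * (B.card : ℝ) ^ e := by
          field_simp
      _ ≤ c * (B.card : ℝ) ^ e :=
          mul_le_mul_of_nonneg_right (min_le_left _ _) (by positivity)

/-- threefold sets -/
theorem r3 (κ : ℝ) (hκ : κ < 3329 / 2348) : ∃ c : ℝ, 0 < c ∧ ∀ A : Finset ℝ,
    A.Nonempty → c * (A.card : ℝ) ^ κ ≤
      max ((sm A 2).card : ℝ) ((pr A 2).card : ℝ) := by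
  obtain ⟨c, hc, H⟩ := kr 1 (3329 / 2348) (by norm_num)
    (kp 1 (3329 / 2348) fun x y n c E ν t hc hE h1 h2 h3 h4 h5 _ =>
      li3 x y n c E ν t hc hE (h1 1 1) h2 h3 h4 h5) (3329 / 2348 - κ) (by linarith)
  have he : 3329 / 2348 - (3329 / 2348 - κ) = κ := by ring
  rw [he] at H
  exact ⟨c, hc, H⟩

/-- k-fold sets, k at least four -/
theorem r4 (j : ℕ) (hj : 2 ≤ j) (κ : ℝ) (hκ : κ < ex5 j) : ∃ c : ℝ, 0 < c ∧ ∀ A : Finset ℝ,
    A.Nonempty → c * (A.card : ℝ) ^ κ ≤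
      max ((sm A (j + 1)).card : ℝ) ((pr A (j + 1)).card : ℝ) := by
  obtain ⟨c, hc, H⟩ := kr j (ex5 j) (one_le_ex5 j)
    (kp j (ex5 j) fun x y n c E ν t hc hE h1 h2 h3 h4 _ h6 =>
      li4 j hj x y n c E ν t hc hE h1 h2 h3 h4 h6) (ex5 j - κ) (by linarith)
  have he : ex5 j - (ex5 j - κ) = κ := by ring
  rw [he] at H
  exact ⟨c, hc, H⟩

end Pool.Agent.Run7.h70.KF
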