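import Pool.Agent.Run7.h70.KF.Cone
import Pool.Agent.Y569.SP.Chain5
import Pool.Agent.W798.KF.Up

/-!
# k-fold sums and products: five inequalities for the number and the size of the popular fibres
-/

set_option autoImplicit false
set_option linter.all false
set_option maxHeartbeats 1000000

open Finset
open scoped Classical Pointwise

namespace Pool.Agent.Run7.h70.KF

open Pool.Agent.W904.AK Pool.Agent.W798.SP Pool.Agent.W798.KF Pool.Agent.TH408.SP
open Pool.Agent.W32.SPY (lj_le Cst_le Er_le)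
open Pool.Agent.W741.KF (lg_le)
open Pool.Agent.W798.KF.Up (dd)

/-- the constant -/
noncomputable def cst5 (d : ℝ) : ℝ :=
  |2000 * Real.log 2 + 27 * Real.log 4097 + 594 * (d / 806) - 200 * Real.log (d / 806)|

theorem cst5_nonneg (d : ℝ) : 0 ≤ cst5 d := abs_nonneg _

theorem five {δ : ℝ} (hδ : 0 < δ) (A : Finset ℝ) (hA : A.Nonempty) (hpos : ∀ x ∈ A, 0 < x) :
    ∃ ν t : ℝ,
      4 * Real.log A.card ≤ Real.log (A * A).card + (ν + 2 * t) +
        (δ * Real.log A.card + cst5 δ) ∧
      364 * t + 179 * ν ≤ 24 * Real.log (A * A).card + 298 * Real.log (A + A).card +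
        48 * Real.log A.card + (δ * Real.log A.card + cst5 δ) ∧
      4 * ν + 6 * t + 3 * Real.log (A + A).card ≤ Real.log A.card + 3 * Real.log (A * A).card +
        6 * Real.log (A + (A + A)).card + (δ * Real.log A.card + cst5 δ) ∧
      6 * ν + 14 * t + Real.log (A + A).card ≤ Real.log A.card + 3 * Real.log (A * A).card +
        10 * Real.log (A + (A + A)).card + (δ * Real.log A.card + cst5 δ) ∧
      4 * ν + 10 * t + Real.log (A + A).card ≤ Real.log A.card + 3 * Real.log (A * A).card +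
        2 * Real.log (A + (A + A)).card + 4 * Real.log (A + (A + (A + A))).card +
        (δ * Real.log A.card + cst5 δ) := by
  have hEN := pEN
  have hCS := pCS
  have hDY := pDY3
  have hAS := Pool.Agent.Y569.SP.pAS5
  unfold cst5
  obtain ⟨η, hηd⟩ : ∃ η : ℝ, η = δ / 806 := ⟨_, rfl⟩
  have hη : 0 < η := by rw [hηd]; positivity
  rw [← hηd]
  obtain ⟨N, hNd⟩ : ∃ N : ℕ, N = A.card := ⟨_, rfl⟩
  obtain ⟨K, hKd⟩ : ∃ K : ℕ, K = (A + A).card := ⟨_, rfl⟩
  obtain ⟨P, hPd⟩ : ∃ P : ℕ, P = (A * A).card := ⟨_, rfl⟩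
  have hN1 : 1 ≤ N := by rw [hNd]; exact hA.card_pos
  have hNK : N ≤ K := by rw [hNd, hKd]; exact Finset.card_le_card_add_self
  have hP1 : 1 ≤ P := by rw [hPd]; exact (hA.mul hA).card_pos
  have hPN : P ≤ N * N := by rw [hPd, hNd]; exact Finset.card_mul_le
  have hNP : N ≤ P := by
    rw [hNd, hPd]
    obtain ⟨a, ha⟩ := hA
    refine Finset.card_le_card_of_injOn (fun x => a * x)
      (fun x hx => Finset.mul_mem_mul ha hx) ?_
    intro x _ y _ hxy
    exact mul_left_cancel₀ (hpos a ha).ne' hxy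
  have hK1 : 1 ≤ K := hN1.trans hNK
  obtain ⟨T, S, hT1, hTN, hS, hE1, hE3, hE2⟩ := hDY A hA hpos
  have hEN1 := hEN A hpos
  have hCS1 := (hCS A hpos).1
  have hAS1 := hAS A S T
  have hdd := dd (A := A) (H := A + A) (hA.add hA) hpos hT1 hS
  have hn3 := n3 (A := A) (S := S) (T := T) hpos hA hS
  have hn4 := n4 (A := A) (S := S) (T := T) hpos hA hS
  rw [← hNd] at hE1
  rw [← hNd, ← hPd] at hCS1
  rw [← hNd] at hTN hE2
  rw [← hNd, ← hKd] at hEN1
  rw [← hNd, ← hKd, ← hPd]
  obtain ⟨n, hnd⟩ : ∃ n : ℕ, n = S.card := ⟨_, rfl⟩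
  rw [← hnd] at hE1 hE2 hE3
  obtain ⟨J, hJd⟩ : ∃ J : ℕ, J = Nat.log 2 N + 1 := ⟨_, rfl⟩
  rw [← hJd] at hE1 hEN1
  have hJ1 : 1 ≤ J := by omega
  obtain ⟨E, hEd⟩ : ∃ E : ℕ, E = en A := ⟨_, rfl⟩
  rw [← hEd] at hEN1 hCS1 hE1 hE3
  have hEpos : 1 ≤ E := by
    by_contra h
    have h0 : E = 0 := by omega
    rw [h0] at hCS1
    have : 0 < N ^ 4 := by positivity
    simp at hCS1
    omega
  have hn1 : 1 ≤ n := by
    by_contra h
    have h0 : n = 0 := by omega
    rw [h0] at hE1
    simp at hE1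
    omega
  obtain ⟨D, hDd⟩ : ∃ D : ℕ, D = (A + (A + A)).card := ⟨_, rfl⟩
  obtain ⟨F, hFd⟩ : ∃ F : ℕ, F = (A + (A + (A + A))).card := ⟨_, rfl⟩
  have hKD : K ≤ D := by
    rw [hKd, hDd]
    exact Finset.card_le_card_add_left hA
  have hDF : D ≤ F := by
    rw [hDd, hFd]
    exact Finset.card_le_card_add_left hA
  have hD1 : 1 ≤ D := hK1.trans hKD
  have hF1 : 1 ≤ F := hD1.trans hDF
  have hDN : D ≤ N ^ 3 := by
    have h1 : (A + (A + A)).card ≤ A.card * (A + A).card := Finset.card_add_le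
    have h2 : (A + A).card ≤ A.card * A.card := Finset.card_add_le
    rw [hDd, hNd]
    calc (A + (A + A)).card ≤ A.card * (A + A).card := h1
      _ ≤ A.card * (A.card * A.card) := Nat.mul_le_mul_left _ h2
      _ = A.card ^ 3 := by ring
  rw [← hNd, ← hKd, ← hPd, ← hDd, ← hnd] at hdd
  rw [← hNd, ← hJd, ← hKd, ← hPd, ← hDd, ← hnd] at hn3
  rw [← hNd, ← hJd, ← hKd, ← hPd, ← hDd, ← hnd, ← hFd] at hn4
  -- real casts
  have rN : (1 : ℝ) ≤ N := by exact_mod_cast hN1
  have rK : (1 : ℝ) ≤ K := by exact_mod_cast hK1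
  have rP : (1 : ℝ) ≤ P := by exact_mod_cast hP1
  have rT : (1 : ℝ) ≤ T := by exact_mod_cast hT1
  have rn : (1 : ℝ) ≤ n := by exact_mod_cast hn1
  have rJ : (1 : ℝ) ≤ J := by exact_mod_cast hJ1
  have rE : (1 : ℝ) ≤ E := by exact_mod_cast hEpos
  have rNK : (N : ℝ) ≤ K := by exact_mod_cast hNK
  have rNP : (N : ℝ) ≤ P := by exact_mod_cast hNP
  have rTN : (T : ℝ) ≤ N := by exact_mod_cast hTN
  have rE1 : (E : ℝ) ≤ 4 * J * (n * T ^ 2) := by exact_mod_cast hE1
  have rE3 : (n : ℝ) * T ^ 2 ≤ E := by exact_mod_cast hE3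
  have rE2 : (n : ℝ) * T ≤ N ^ 2 := by exact_mod_cast hE2
  have rEN : (E : ℝ) ≤ 8 * K ^ 2 * J := by exact_mod_cast hEN1
  have rCS : (N : ℝ) ^ 4 ≤ P * E := by exact_mod_cast hCS1
  -- logs
  obtain ⟨L, hL⟩ : ∃ L : ℝ, L = Real.log N := ⟨_, rfl⟩
  obtain ⟨s, hs⟩ : ∃ s : ℝ, s = Real.log K := ⟨_, rfl⟩
  obtain ⟨q, hq⟩ : ∃ q : ℝ, q = Real.log P := ⟨_, rfl⟩
  obtain ⟨j, hj⟩ : ∃ j : ℝ, j = Real.log J := ⟨_, rfl⟩
  obtain ⟨t, ht⟩ : ∃ t : ℝ, t = Real.log T := ⟨_, rfl⟩
  obtain ⟨ν, hν⟩ : ∃ ν : ℝ, ν = Real.log n := ⟨_, rfl⟩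
  obtain ⟨jj, hjj⟩ : ∃ jj : ℝ, jj = Real.log (2 * (J : ℝ) + 1) := ⟨_, rfl⟩
  have hL0 : 0 ≤ L := by rw [hL]; exact Real.log_nonneg rN
  have hj0 : 0 ≤ j := by rw [hj]; exact Real.log_nonneg rJ
  have hLs : L ≤ s := by rw [hL, hs]; exact Real.log_le_log (by linarith) rNK
  have hLq : L ≤ q := by rw [hL, hq]; exact Real.log_le_log (by linarith) rNP
  have hjjj : j ≤ jj := by
    rw [hj, hjj]
    exact Real.log_le_log (by linarith) (by linarith)
  have hjjη : jj ≤ η * (3 + 4 * L) - Real.log η := by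
    have := lj_le hη N hN1
    rw [hjj, hL, hJd]
    push_cast
    exact this
  have hl2 : 0 < Real.log 2 := Real.log_pos (by norm_num)
  have hl4097 : 0 < Real.log 4097 := Real.log_pos (by norm_num)
  have e4 : Real.log 4 = 2 * Real.log 2 := by
    rw [show (4 : ℝ) = 2 ^ 2 by norm_num, Real.log_pow]
    push_cast
    ring
  have lE : Real.log (E : ℝ) ≤ 2 * Real.log 2 + j + (ν + 2 * t) := by
    have h := Real.log_le_log (by positivity) rE1
    rw [Real.log_mul (by positivity) (by positivity),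
      Real.log_mul (by positivity) (by positivity), Real.log_mul (by positivity) (by positivity),
      Real.log_pow, e4] at h
    push_cast at h
    rw [hj, hν, ht]
    linarith
  have lCS : 4 * L ≤ q + Real.log (E : ℝ) := by
    have h := Real.log_le_log (by positivity) rCS
    rw [Real.log_pow, Real.log_mul (by positivity) (by positivity)] at h
    push_cast at h
    rw [hL, hq]
    exact h
  have lE1 : 4 * L ≤ 2 * Real.log 2 + q + j + (ν + 2 * t) := by linarith
  obtain ⟨D', hD'⟩ : ∃ D' : ℝ, D' = Real.log D := ⟨_, rfl⟩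
  obtain ⟨F', hF'⟩ : ∃ F' : ℝ, F' = Real.log F := ⟨_, rfl⟩
  obtain ⟨lg, hlg⟩ : ∃ lg : ℝ, lg = Real.log (4097 * ((Nat.log 2 D : ℝ) + 1)) := ⟨_, rfl⟩
  have rD : (1 : ℝ) ≤ D := by exact_mod_cast hD1
  have rF : (1 : ℝ) ≤ F := by exact_mod_cast hF1
  have hl0 : (0 : ℝ) ≤ (Nat.log 2 D : ℝ) := Nat.cast_nonneg _
  have hG : (0 : ℝ) < 4097 * ((Nat.log 2 D : ℝ) + 1) := by positivity
  have hlg0 : 0 ≤ lg := by
    rw [hlg]
    apply Real.log_nonneg
    linarith
  have hlgle : lg ≤ Real.log 4097 + (η * (6 * L + 1) - Real.log η) := by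
    have := lg_le hη hN1 hD1 hDN 4097 (by norm_num)
    rw [hlg, hL]
    exact this
  have ldd : 3 * s + 6 * t + 4 * ν ≤ L + 3 * q + 6 * D' + 3 * lg := by
    have rdd : (K : ℝ) ^ 3 * (T * (N * (n * T)) ^ 2) ^ 2 ≤
        ((4097 * ((Nat.log 2 D : ℝ) + 1)) * N * P ^ 3 * D ^ 2) *
          ((4097 * ((Nat.log 2 D : ℝ) + 1)) * (D * N) ^ 2) ^ 2 := by exact_mod_cast hdd
    have h := Real.log_le_log (by positivity) rdd
    rw [Real.log_mul (by positivity) (by positivity), Real.log_pow, Real.log_pow,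
      Real.log_mul (x := (T : ℝ)) (by positivity) (by positivity), Real.log_pow,
      Real.log_mul (x := (N : ℝ)) (by positivity) (by positivity),
      Real.log_mul (x := (n : ℝ)) (by positivity) (by positivity),
      Real.log_mul (x := (4097 * ((Nat.log 2 D : ℝ) + 1)) * N * P ^ 3 * D ^ 2) (by positivity)
        (by positivity),
      Real.log_mul (x := (4097 * ((Nat.log 2 D : ℝ) + 1)) * N * P ^ 3) (by positivity)
        (by positivity),
      Real.log_mul (x := (4097 * ((Nat.log 2 D : ℝ) + 1)) * N) (by positivity) (by positivity),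
      Real.log_mul (x := (4097 * ((Nat.log 2 D : ℝ) + 1))) (y := (N : ℝ)) (by positivity)
        (by positivity), Real.log_pow, Real.log_pow, Real.log_pow,
      Real.log_mul (x := (4097 * ((Nat.log 2 D : ℝ) + 1))) (y := ((D : ℝ) * N) ^ 2)
        (by positivity) (by positivity), Real.log_pow,
      Real.log_mul (x := (D : ℝ)) (by positivity) (by positivity), ← hlg, ← hs, ← ht, ← hL,
      ← hν, ← hq, ← hD'] at h
    push_cast at h
    linarith
  have ln3 : s + 6 * ν + 14 * t ≤ L + 3 * q + 10 * D' + (16 * Real.log 2 + 2 * j + lg) := by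
    have r3 : (K : ℝ) * n ^ 6 * T ^ 14 ≤ 65536 * J ^ 2 *
        (4097 * ((Nat.log 2 D : ℝ) + 1)) * N * P ^ 3 * D ^ 10 := by exact_mod_cast hn3
    have e16 : Real.log 65536 = 16 * Real.log 2 := by
      rw [show (65536 : ℝ) = 2 ^ 16 by norm_num, Real.log_pow]
      push_cast
      ring
    have h := Real.log_le_log (by positivity) r3
    rw [Real.log_mul (x := (K : ℝ) * n ^ 6) (by positivity) (by positivity),
      Real.log_mul (x := (K : ℝ)) (by positivity) (by positivity), Real.log_pow, Real.log_pow,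
      Real.log_mul (x := 65536 * (J : ℝ) ^ 2 * (4097 * ((Nat.log 2 D : ℝ) + 1)) * N * P ^ 3)
        (by positivity) (by positivity),
      Real.log_mul (x := 65536 * (J : ℝ) ^ 2 * (4097 * ((Nat.log 2 D : ℝ) + 1)) * N)
        (by positivity) (by positivity),
      Real.log_mul (x := 65536 * (J : ℝ) ^ 2 * (4097 * ((Nat.log 2 D : ℝ) + 1)))
        (by positivity) (by positivity),
      Real.log_mul (x := 65536 * (J : ℝ) ^ 2) (by positivity) (by positivity),
      Real.log_mul (x := (65536 : ℝ)) (y := (J : ℝ) ^ 2) (by positivity) (by positivity),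
      Real.log_pow, Real.log_pow, Real.log_pow, e16, ← hlg, ← hs, ← ht, ← hL,
      ← hν, ← hq, ← hD', ← hj] at h
    push_cast at h
    linarith
  have ln4 : s + 4 * ν + 10 * t ≤ L + 3 * q + 2 * D' + 4 * F' +
      (12 * Real.log 2 + 2 * j + lg) := by
    have r4 : (K : ℝ) * n ^ 4 * T ^ 10 ≤ 4096 * J ^ 2 *
        (4097 * ((Nat.log 2 D : ℝ) + 1)) * N * P ^ 3 * D ^ 2 * F ^ 4 := by exact_mod_cast hn4
    have e12 : Real.log 4096 = 12 * Real.log 2 := by
      rw [show (4096 : ℝ) = 2 ^ 12 by norm_num, Real.log_pow]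
      push_cast
      ring
    have h := Real.log_le_log (by positivity) r4
    rw [Real.log_mul (x := (K : ℝ) * n ^ 4) (by positivity) (by positivity),
      Real.log_mul (x := (K : ℝ)) (by positivity) (by positivity), Real.log_pow, Real.log_pow,
      Real.log_mul (x := 4096 * (J : ℝ) ^ 2 * (4097 * ((Nat.log 2 D : ℝ) + 1)) * N * P ^ 3 *
        D ^ 2) (by positivity) (by positivity),
      Real.log_mul (x := 4096 * (J : ℝ) ^ 2 * (4097 * ((Nat.log 2 D : ℝ) + 1)) * N * P ^ 3)
        (by positivity) (by positivity),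
      Real.log_mul (x := 4096 * (J : ℝ) ^ 2 * (4097 * ((Nat.log 2 D : ℝ) + 1)) * N)
        (by positivity) (by positivity),
      Real.log_mul (x := 4096 * (J : ℝ) ^ 2 * (4097 * ((Nat.log 2 D : ℝ) + 1)))
        (by positivity) (by positivity),
      Real.log_mul (x := 4096 * (J : ℝ) ^ 2) (by positivity) (by positivity),
      Real.log_mul (x := (4096 : ℝ)) (y := (J : ℝ) ^ 2) (by positivity) (by positivity),
      Real.log_pow, Real.log_pow, Real.log_pow, Real.log_pow, e12, ← hlg, ← hs, ← ht, ← hL,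
      ← hν, ← hq, ← hD', ← hF', ← hj] at h
    push_cast at h
    linarith
  -- the error
  have herr : 2000 * Real.log 2 + 24 * Real.log 4097 + 197 * jj + 3 * lg ≤ δ * L +
      |2000 * Real.log 2 + 27 * Real.log 4097 + 594 * η - 200 * Real.log η| := by
    have h1 := le_abs_self
      (2000 * Real.log 2 + 27 * Real.log 4097 + 594 * η - 200 * Real.log η)
    have h2 : 806 * η * L = δ * L := by rw [hηd]; ring
    linarith
  -- the choice of M
  obtain ⟨M, hMd⟩ : ∃ M : ℕ, M = max 2 ⌈16 * (K : ℝ) ^ 2 / (n * T ^ 2)⌉₊ := ⟨_, rfl⟩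
  have hM2 : 2 ≤ M := by rw [hMd]; exact le_max_left _ _
  have hMr : 16 * (K : ℝ) ^ 2 / (n * T ^ 2) ≤ M := by
    refine (Nat.le_ceil _).trans ?_
    rw [hMd]
    exact_mod_cast le_max_right _ _
  have hM16 : 16 * K ^ 2 ≤ M * n * T ^ 2 := by
    rw [div_le_iff₀ (by positivity)] at hMr
    have : (16 * (K : ℝ) ^ 2) ≤ M * n * T ^ 2 := by linarith
    exact_mod_cast this
  have hMup : (M : ℝ) ≤ 32 * K ^ 2 * J / (n * T ^ 2) := by
    have h1 : (M : ℝ) ≤ 16 * (K : ℝ) ^ 2 / (n * T ^ 2) + 2 := by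
      rw [hMd, Nat.cast_max]
      refine max_le ?_ ?_
      · have : 0 ≤ 16 * (K : ℝ) ^ 2 / (n * T ^ 2) := by positivity
        push_cast
        linarith
      · have := (Nat.ceil_lt_add_one (show 0 ≤ 16 * (K : ℝ) ^ 2 / (n * T ^ 2) by positivity)).le
        linarith
    have h2 : 16 * (K : ℝ) ^ 2 / (n * T ^ 2) ≤ 16 * K ^ 2 * J / (n * T ^ 2) := by
      rw [div_le_div_iff_of_pos_right (by positivity)]
      have : 16 * (K : ℝ) ^ 2 * 1 ≤ 16 * (K : ℝ) ^ 2 * J :=
        mul_le_mul_of_nonneg_left rJ (by positivity)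
      linarith
    have h3 : (2 : ℝ) ≤ 16 * K ^ 2 * J / (n * T ^ 2) := by
      rw [le_div_iff₀ (by positivity)]
      linarith
    have h4 : 16 * (K : ℝ) ^ 2 * J / (n * T ^ 2) + 16 * K ^ 2 * J / (n * T ^ 2) =
        32 * K ^ 2 * J / (n * T ^ 2) := by ring
    linarith
  have e32 : Real.log 32 = 5 * Real.log 2 := by
    rw [show (32 : ℝ) = 2 ^ 5 by norm_num, Real.log_pow]
    push_cast
    ring
  have lup : Real.log (32 * (K : ℝ) ^ 2 * J / (n * T ^ 2)) =
      5 * Real.log 2 + 2 * s + j - (ν + 2 * t) := by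
    rw [Real.log_div (by positivity) (by positivity), Real.log_mul (by positivity) (by positivity),
      Real.log_mul (by positivity) (by positivity), Real.log_mul (by positivity) (by positivity),
      Real.log_pow, Real.log_pow, e32, hs, hj, hν, ht]
    push_cast
    ring
  have key : 364 * t + 179 * ν ≤ 24 * q + 298 * s + 48 * L +
      (2000 * Real.log 2 + 24 * Real.log 4097 + 197 * jj) := by
    rcases le_or_gt M n with hMn | hMn
    · -- first case
      have h1 := hAS1 M hA hpos hT1 hM2 (by rw [← hnd]; exact hMn) hS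
        (by rw [← hnd, ← hKd]; exact hM16)
      rw [← hNd, ← hPd, ← hnd, ← hEd] at h1
      have rM : (1 : ℝ) ≤ M := by exact_mod_cast (by omega : 1 ≤ M)
      have g0 : Real.log ((T : ℝ) ^ 2 / (32 * (M : ℝ))) =
          2 * t - 5 * Real.log 2 - Real.log M := by
        rw [Real.log_div (by positivity) (by positivity),
          Real.log_mul (by norm_num) (by positivity), Real.log_pow, e32, ht]
        push_cast
        ring
      have g0' : Real.log ((T : ℝ) ^ 2 / (16 * (M : ℝ))) =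
          2 * t - 4 * Real.log 2 - Real.log M := by
        rw [Real.log_div (by positivity) (by positivity),
          Real.log_mul (by norm_num) (by positivity),
          Real.log_pow, show (16 : ℝ) = 2 ^ 4 by norm_num, Real.log_pow, ht]
        push_cast
        ring
      have g2 : Real.log ((2 * T : ℕ) : ℝ) = Real.log 2 + t := by
        push_cast
        rw [Real.log_mul (by norm_num) (by positivity), ht]
      have g2' : Real.log ((2 * T * M : ℕ) : ℝ) = Real.log 2 + t + Real.log M := by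
        push_cast
        rw [Real.log_mul (by positivity) (by positivity),
          Real.log_mul (by norm_num) (by positivity), ht]
      have g3 : Real.log ((n : ℝ) * T / 32) = ν + t - 5 * Real.log 2 := by
        rw [Real.log_div (by positivity) (by norm_num),
          Real.log_mul (by positivity) (by positivity), e32, hν, ht]
      have g5 : Real.log (M : ℝ) ≤ 5 * Real.log 2 + 2 * s + j - (ν + 2 * t) := by
        have h := Real.log_le_log (by positivity) hMup
        rw [lup] at h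
        exact h
      have g6 : Cst (2 * T * M) ≤ Real.log 4097 + jj := by
        rw [hjj]
        refine Cst_le ?_
        have hTM : T * M ≤ N ^ 2 := by
          calc T * M ≤ T * n := Nat.mul_le_mul_left _ hMn
            _ = n * T := mul_comm _ _
            _ ≤ N ^ 2 := hE2
        have hNJ : N < 2 ^ J := by rw [hJd]; exact Nat.lt_pow_succ_log_self (by norm_num) N
        have hNJ2 : N ^ 2 < 2 ^ (2 * J) := by
          calc N ^ 2 = N * N := pow_two N
            _ < 2 ^ J * 2 ^ J := Nat.mul_lt_mul'' hNJ hNJ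
            _ = 2 ^ (2 * J) := by rw [← pow_add]; congr 1; ring
        have h2 : 2 * T * M < 2 ^ (2 * J + 1) := by
          rw [pow_succ, mul_assoc]
          omega
        have h3 : Nat.log 2 (2 * T * M) < 2 * J + 1 :=
          Nat.log_lt_of_lt_pow (by
            have : 0 < 2 * T * M := by positivity
            omega) h2
        omega
      have g7 : Er P ≤ 5 * Real.log 2 + Real.log 4097 + 7 * jj := by
        rw [hjj, hJd]
        exact Er_le hN1 hP1 hPN
      rw [g0, g0', g2, g2', g3] at h1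
      rw [← hL, ← hq] at h1
      linarith only [h1, lE, g5, g6, g7, hjjj, hl2]
    · -- second case
      have k1 : (n : ℝ) ≤ 32 * K ^ 2 * J / (n * T ^ 2) := by
        have : (n : ℝ) ≤ M := by exact_mod_cast hMn.le
        exact this.trans hMup
      have k2 : ν ≤ 5 * Real.log 2 + 2 * s + j - (ν + 2 * t) := by
        have h := Real.log_le_log (by positivity) k1
        rw [lup] at h
        rw [hν]
        rw [hν] at h
        exact h
      have k3 : t ≤ L := by rw [ht, hL]; exact Real.log_le_log (by linarith) rTN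
      linarith only [k2, k3, hL0, hLs, hLq, hjjj, hj0, hl2, hl4097]
  refine ⟨ν, t, ?_, ?_, ?_, ?_, ?_⟩
  · rw [← hL, ← hq]
    linarith only [lE1, herr, hl2, hl4097, hj0, hjjj, hlg0]
  · rw [← hL, ← hq, ← hs]
    linarith only [key, herr, hlg0]
  · rw [← hDd, ← hL, ← hq, ← hs, ← hD']
    linarith only [ldd, herr, hl2, hl4097, hj0, hjjj, hlg0]
  · rw [← hDd, ← hL, ← hq, ← hs, ← hD']
    linarith only [ln3, herr, hl2, hl4097, hj0, hjjj, hlg0]
  · rw [← hDd, ← hFd, ← hL, ← hq, ← hs, ← hD', ← hF']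
    linarith only [ln4, herr, hl2, hl4097, hj0, hjjj, hlg0]

end Pool.Agent.Run7.h70.KF
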